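import Pool.Agent.Q7.IM.Fin
import Pool.Agent.Q5.RX.Deg

/-!
# Ratios of successive critical values over totally imaginary fields: extensions without automorphisms

`K` is a totally imaginary number field and `M₀` a motive over `K` with coefficients in the number
field `E`, without middle Hodge type. `F` runs over the finite extensions of `K`; `M₀ ⊗ F` is the base
change. An element of `E ⊗ ℂ = ∏_τ ℂ` is a family `ℓ τ` of numbers, `τ : E →+* ℂ`.

`Data K E`: the weight `wt`, the rank `n`, the Hodge numbers `hodge p = h^{p, wt-p}`, `p < wt - p`, of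
`M = Res_{K/ℚ} M₀`, and the Frobenius polynomials `P v f = det (1 - Frob_v ^ f X)`. At a prime `w` of
`F` above `v` with residue degree `f`, so that `N(w) = N(v)^f`, the Euler factor of `M₀ ⊗ F` is
`P v f` at `N(w)^(-s)`. `IsValue D F m ℓ`: `ℓ` is the value at `s = m` of the completed L-function of
`M₀ ⊗ F`, `(∏_p Γ_ℂ(m - p)^(hodge p))^[F:K] ∏_w b_w⁻¹`, where `b_w` is the Euler factor at `m` for almost
all `w`, and any element of `E^×` at the finitely many others (this does not matter modulo `E^×`).

`IsDelta F δ` says that `δ` is the number `Δ_F` of the problem: let `F₀` be the maximal totally real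
subfield. In the CM-case there is `y` in `F` such that `D = y²` is a totally negative element of `F₀`;
then `F₁ = F₀(y)` is the maximal CM subfield and `Δ_F = √(N_{F₀/ℚ}(D)) ^ [F : F₁]` (both square roots
are allowed). In the TR-case there is no such `y`, and `Δ_F = 1`.

`Deligne D m F` is the assertion of Q1 for `M₀ ⊗ F` and `m`: `L(m) / L(m + 1) = e (i^(d_F/2) Δ_F)^n`
with `e` in `E^×`; `Power D m F t` says that the `t`-th power of the quotient of the two sides is in
`E^×`.
-/

set_option autoImplicit false

namespace Pool.Agent.Results.MP_c63a07_nt.FieldsWithoutAutomorphisms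

open Module NumberField Pool.Agent.Q7.IM Pool.Agent.Q7.IM.Fin

/-- The identity is the only automorphism of the field `F`. -/
def NoAutomorphisms (F : Type) [Field F] : Prop :=
  ∀ (τ : F ≃+* F) (x : F), τ x = x

/-- A class of degrees: a set of positive integers such that `d * p` belongs to it with `d`, for all
prime numbers `p` above some bound. -/
def IsClass (A : Set ℕ) : Prop :=
  ∃ p₀ : ℕ, ∀ d ∈ A, ∀ p : ℕ, p.Prime → p₀ < p → d * p ∈ A

/-- **The extensions without automorphisms suffice.** Let `M₀` be a motive over the totally imaginary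
field `K`, pure at almost all places, `m` and `m + 1` critical, and `m` to the right of the critical
strip, `2 m ≥ wt + 3`.
(1) Let `p > [K : ℚ] + 1` be a prime number. If the assertion of Q1 holds for `M₀ ⊗ X` for all `X/K`
of degree `p` or `p²` without automorphisms, then it holds for `M₀` up to the exponent `p`.
(2) If it fails for `M₀`, then for all prime numbers `p > [K : ℚ] + 1` with at most one exception it
fails for `M₀ ⊗ X` for some `X/K` of degree `p` or `p²` without automorphisms.
(3) Let `A` be closed under multiplication by the large prime numbers. If it holds for all `X/K`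
without automorphisms with `[X : K]` in `A`, it holds for all `F/K` with `[F : K]` in `A`.
(4) If it holds for all `X/K` without automorphisms with `N ∣ [X : K]`, it holds for all `F/K` up to
the exponent `N / gcd(N, [F : K])`. -/
theorem result (K E : Type) [Field K] [NumberField K] [Field E] [NumberField E]
    [IsTotallyComplex K] (D : Data K E) (hD : D.Pure) (m : ℤ) (hc : Critical D m)
    (hm : D.wt + 3 ≤ 2 * m) :
    (∀ p : ℕ, p.Prime → finrank ℚ K + 1 < p →
      (∀ (X : Type) [Field X] [NumberField X] [Algebra K X], NoAutomorphisms X →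
        (finrank K X = p ∨ finrank K X = p ^ 2) → Deligne D m X) → Power D m K p) ∧
    (¬ Deligne D m K → ∃ p₀ : ℕ, ∀ p : ℕ, p.Prime → finrank ℚ K + 1 < p → p ≠ p₀ →
      ∃ (X : Type) (_ : Field X) (_ : NumberField X) (_ : Algebra K X), NoAutomorphisms X ∧
        (finrank K X = p ∨ finrank K X = p ^ 2) ∧ ¬ Deligne D m X) ∧
    (∀ A : Set ℕ, IsClass A →
      (∀ (X : Type) [Field X] [NumberField X] [Algebra K X], NoAutomorphisms X →
        finrank K X ∈ A → Deligne D m X) →
      ∀ (F : Type) [Field F] [NumberField F] [Algebra K F], finrank K F ∈ A → Deligne D m F) ∧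
    ∀ N : ℕ, (∀ (X : Type) [Field X] [NumberField X] [Algebra K X], NoAutomorphisms X →
        N ∣ finrank K X → Deligne D m X) →
      ∀ (F : Type) [Field F] [NumberField F] [Algebra K F],
        Power D m F (N / N.gcd (finrank K F)) := by
  have hK : IsTotallyComplex K := inferInstance
  have hc' : Crit D m := fun p hp => (hc.critical p hp).1
  have hlaw := conj_isLaw hK hD hm hc'
  have hiff : ∀ (F : Type) [Field F] [NumberField F] [Algebra K F],
      Deligne D m F ↔ ConjP D m F 1 := fun F _ _ _ => deligne_iff hD hm hc (delta_ne F)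
  have h1 : ∀ p : ℕ, p.Prime → finrank ℚ K + 1 < p →
      (∀ (X : Type) [Field X] [NumberField X] [Algebra K X], NoAutomorphisms X →
        (finrank K X = p ∨ finrank K X = p ^ 2) → Deligne D m X) → ConjP D m K (p : ℤ) := by
    intro p hp hlt h
    exact Pool.Agent.Q5.RX.prime_of_rigid hlaw K hp hlt
      (fun X _ _ iKX iKX' hst hX hdeg => by
        have e : iKX' = iKX := Algebra.algebra_ext _ _ fun r =>
          ((@IsScalarTower.algebraMap_apply K K X _ _ _ _ iKX' iKX hst r)).symm
        subst e
        exact (hiff X).1 (h X hX hdeg))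
  refine ⟨fun p hp hlt h => power_iff.2 (h1 p hp hlt h), ?_, ?_, ?_⟩
  · intro hnot
    by_contra hcon
    push Not at hcon
    -- two exceptional primes
    obtain ⟨p, hp, hlt, -, hp'⟩ := hcon 0
    obtain ⟨q, hq, hltq, hne, hq'⟩ := hcon p
    refine hnot ((hiff K).2 (Pool.Agent.Q5.RX.one_of_two_primes hlaw K hp hq (Ne.symm hne) ?_ ?_))
    · exact h1 p hp hlt fun X _ _ _ hX hdeg => hp' X inferInstance inferInstance inferInstance hX hdeg
    · exact h1 q hq hltq fun X _ _ _ hX hdeg => hq' X inferInstance inferInstance inferInstance hX hdeg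
  · rintro A ⟨p₀, hA⟩ h F _ _ _ hF
    exact (hiff F).2 (Pool.Agent.Q5.RX.rigid_degree_law hlaw hA
      (fun X _ _ _ hr hd => (hiff X).1 (h X hr hd)) F hF)
  · intro N h F _ _ _
    rw [power_iff]
    exact Pool.Agent.Q5.RF.gen_rigid_power_law hlaw (M := N)
      (fun F' _ _ _ hr hd => (hiff F').1 (h F' hr hd)) F

end Pool.Agent.Results.MP_c63a07_nt.FieldsWithoutAutomorphisms
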