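import Pool.Agent.Q7.IM.Fin

/-!
# Ratios of successive critical values over totally imaginary fields: induction theorems

`K` is a totally imaginary number field and `M₀` a motive over `K` with coefficients in the number
field `E`, without middle Hodge type. `F` runs over the finite extensions of `K`; `M₀ ⊗ F` is the base
change. An element of `E ⊗ ℂ = ∏_τ ℂ` is a family `ℓ τ` of numbers, `τ : E →+* ℂ`.

`Data K E`: the weight `wt`, the rank `n`, the Hodge numbers `hodge p = h^{p, wt-p}`, `p < wt - p`, of
`M = Res_{K/ℚ} M₀`, and the Frobenius polynomials `P v f = det (1 - Frob_v ^ f X)`. At a prime `w` of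
`F` above `v` with residue degree `f`, so that `N(w) = N(v)^f`, the Euler factor of `M₀ ⊗ F` is
`P v f` at `N(w)^(-s)`. `IsValue D F m ℓ`: `ℓ` is the value at `s = m` of the completed L-function of
`M₀ ⊗ F`, `(∏_p Γ_ℂ(m - p)^(hodge p))^[F:K] ∏_w b_w⁻¹`, where `b_w` is the Euler factor at `m` for almost
all `w`, and any element of `E^×` at the finitely many others (this does not matter modulo `E^×`).

`IsDelta F δ` says that `δ` is the number `Δ_F` of the problem: let `F₀` be the maximal totally real
subfield. In the CM-case there is `y` in `F` such that `D = y²` is a totally negative element of `F₀`;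
then `F₁ = F₀(y)` is the maximal CM subfield and `Δ_F = √(N_{F₀/ℚ}(D)) ^ [F : F₁]` (both square roots
are allowed). In the TR-case there is no such `y`, and `Δ_F = 1`.

`Deligne D m F` is the assertion of Q1 for `M₀ ⊗ F` and `m`: `L(m) / L(m + 1) = e (i^(d_F/2) Δ_F)^n`
with `e` in `E^×`.
`Hyper G`: the group `G` is hyperelementary. `Exact 𝓕`: the family `𝓕` of finite extensions of `K` is
closed under isomorphisms and composita, and for all automorphisms `g` of the algebraic closure and all
primes `p` some member has a number of embeddings fixed by `g` prime to `p`.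
-/

set_option autoImplicit false

namespace Pool.Agent.Results.MP_c63a07_nt.InductionFromExactFamilies

open Module NumberField Pool.Agent.Q7.IM Pool.Agent.Q7.IM.Fin

/-- Let `M₀` be a motive over the totally imaginary field `K`, pure at almost all places, `m` and
`m + 1` critical, and `m` to the right of the critical strip, `2 m ≥ wt + 3`.
(1) The values of the completed L-functions at `m` and `m + 1` exist and are not zero, for all finite
extensions `F` of `K`; `Δ_F` exists, and the number predicted over `F` is, up to a rational factor, the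
power of the number predicted over `K`: `i^(d_F/2) Δ_F = q (i^(d_K/2) Δ_K)^[F:K]`.
(2) Let `L/K` be a finite Galois extension. If the assertion of Q1 holds for `M₀ ⊗ F` for the fields
`K ⊆ F ⊆ L` such that the Galois group of `L/F` is hyperelementary, then it holds for all
`K ⊆ F ⊆ L`, in particular for `M₀`.
(3) If it holds for the members of an exact family, it holds for `M₀`. -/
theorem result (K E : Type) [Field K] [NumberField K] [Field E] [NumberField E]
    [IsTotallyComplex K] (D : Data K E) (hD : D.Pure) (m : ℤ) (hc : Critical D m)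
    (hm : D.wt + 3 ≤ 2 * m) :
    -- (1)
    (∀ (F : Type) [Field F] [NumberField F] [Algebra K F],
      (∃ ℓ, IsValue D F m ℓ) ∧ (∃ ℓ, IsValue D F (m + 1) ℓ) ∧
      (∀ ℓ, (IsValue D F m ℓ ∨ IsValue D F (m + 1) ℓ) → ∀ τ, ℓ τ ≠ 0) ∧
      (∃ δ, IsDelta F δ) ∧ ∀ δ δ', IsDelta K δ → IsDelta F δ' → ∃ q : ℚ, q ≠ 0 ∧
        Complex.I ^ (finrank ℚ F / 2) * δ' =
          q * (Complex.I ^ (finrank ℚ K / 2) * δ) ^ finrank K F) ∧
    -- (2)
    (∀ (L : Type) [Field L] [NumberField L] [Algebra K L] [IsGalois K L],
      (∀ (F : Type) [Field F] [NumberField F] [Algebra K F] [Algebra F L] [IsScalarTower K F L],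
        Hyper (L ≃ₐ[F] L) → Deligne D m F) →
      ∀ (F : Type) [Field F] [NumberField F] [Algebra K F] [Algebra F L] [IsScalarTower K F L],
        Deligne D m F) ∧
    -- (3)
    ∀ 𝓕 : Set (IntermediateField K (AlgebraicClosure K)), Exact 𝓕 →
      (∀ F ∈ 𝓕, ∀ [NumberField F], Deligne D m F) → Deligne D m K :=
  ⟨(all K E D hD m hc hm).1, (all K E D hD m hc hm).2.1, (all K E D hD m hc hm).2.2.1⟩

end Pool.Agent.Results.MP_c63a07_nt.InductionFromExactFamilies
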