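import Pool.Agent.Q7.IM.Fin

/-!
# Ratios of successive critical values over totally imaginary fields: extensions with prescribed local degrees

`K` is a totally imaginary number field and `M₀` a motive over `K` with coefficients in the number
field `E`, without middle Hodge type. `F` runs over the finite extensions of `K`; `M₀ ⊗ F` is the base
change. An element of `E ⊗ ℂ = ∏_τ ℂ` is a family `ℓ τ` of numbers, `τ : E →+* ℂ`.

`Data K E`: the weight `wt`, the rank `n`, the Hodge numbers `hodge p = h^{p, wt-p}`, `p < wt - p`, of
`M = Res_{K/ℚ} M₀`, and the Frobenius polynomials `P v f = det (1 - Frob_v ^ f X)`. At a prime `w` of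
`F` above `v` with residue degree `f`, so that `N(w) = N(v)^f`, the Euler factor of `M₀ ⊗ F` is
`P v f` at `N(w)^(-s)`. `IsValue D F m ℓ`: `ℓ` is the value at `s = m` of the completed L-function of
`M₀ ⊗ F`, `(∏_p Γ_ℂ(m - p)^(hodge p))^[F:K] ∏_w b_w⁻¹`, where `b_w` is the Euler factor at `m` for almost
all `w`, and any element of `E^×` at the finitely many others (this does not matter modulo `E^×`).

`IsDelta F δ` says that `δ` is the number `Δ_F` of the problem: let `F₀` be the maximal totally real
subfield. In the CM-case there is `y` in `F` such that `D = y²` is a totally negative element of `F₀`;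
then `F₁ = F₀(y)` is the maximal CM subfield and `Δ_F = √(N_{F₀/ℚ}(D)) ^ [F : F₁]` (both square roots
are allowed). In the TR-case there is no such `y`, and `Δ_F = 1`.

`Deligne D m F` is the assertion of Q1 for `M₀ ⊗ F` and `m`: `L(m) / L(m + 1) = e (i^(d_F/2) Δ_F)^n`
with `e` in `E^×`.
-/

set_option autoImplicit false

namespace Pool.Agent.Results.MP_c63a07_nt.PrescribedLocalDegrees

open Module NumberField Pool.Agent.Q7.IM Pool.Agent.Q7.IM.Fin

/-- Let `M₀` be a motive over the totally imaginary field `K`, pure at almost all places, `m` and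
`m + 1` critical, and `m` to the right of the critical strip, `2 m ≥ wt + 3`. Let `S` be a finite set
of primes, and for `q` in `S` let `A q` be a set of integers closed under multiples without common
divisor. If the assertion of Q1 holds for all `F` with the local degrees `[F_w : ℚ_q]` in `A q` for all
`q` in `S` and `w | q`, then it holds for all `F`. -/
theorem result (K E : Type) [Field K] [NumberField K] [Field E] [NumberField E]
    [IsTotallyComplex K] (D : Data K E) (hD : D.Pure) (m : ℤ) (hc : Critical D m)
    (hm : D.wt + 3 ≤ 2 * m) :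
    ∀ (S : Finset ℕ) (A : ℕ → Set ℕ), (∀ q ∈ S, q.Prime) →
      (∀ q ∈ S, ∀ d ∈ A q, ∀ n : ℕ, 0 < n → d * n ∈ A q) →
      (∀ q ∈ S, ∀ g : ℕ, (∀ d ∈ A q, g ∣ d) → g = 1) →
      (∀ (F : Type) [Field F] [NumberField F] [Algebra K F], (∀ q ∈ S, ∀ w : Ideal (𝓞 F), w.IsPrime →
        (q : 𝓞 F) ∈ w → w.ramificationIdx ℤ * w.inertiaDeg ℤ ∈ A q) → Deligne D m F) →
      ∀ (F : Type) [Field F] [NumberField F] [Algebra K F], Deligne D m F :=
  (all K E D hD m hc hm).2.2.2.2.1

end Pool.Agent.Results.MP_c63a07_nt.PrescribedLocalDegrees
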